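import Mathlib

set_option autoImplicit false

namespace Pool.Agent.Results.MP_bc8021_gt.ProdMetaT1

open Set Filter Topology TopologicalSpace

universe u

/-- `Γ` has rank `≤ n` at `x` -/
def RankLE {X : Type u} (Γ : Set (Set X)) (x : X) (n : ℕ) : Prop :=
  ∀ Γ' ⊆ Γ, (∀ B ∈ Γ', x ∈ B) → IsAntichain (· ⊆ ·) Γ' → Γ'.encard ≤ n

/-- `X` has a base of point-finite rank -/
def PointFiniteRankBase (X : Type u) [TopologicalSpace X] : Prop :=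
  ∃ Γ : Set (Set X), IsTopologicalBasis Γ ∧ ∀ x, ∃ n : ℕ, RankLE Γ x n

/-- every open cover has a point-finite open refinement -/
def Metacompact (X : Type u) [TopologicalSpace X] : Prop :=
  ∀ 𝒰 : Set (Set X), (∀ U ∈ 𝒰, IsOpen U) → ⋃₀ 𝒰 = univ →
    ∃ 𝒱 : Set (Set X), (∀ V ∈ 𝒱, IsOpen V ∧ ∃ U ∈ 𝒰, V ⊆ U) ∧ ⋃₀ 𝒱 = univ ∧
      ∀ x, {V | V ∈ 𝒱 ∧ x ∈ V}.Finite

lemma anti {X : Type u} {Γ : Set (Set X)} {p : X} {n : ℕ} (h : RankLE Γ p n) (u : Ultrafilter ℕ)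
    (T : ℕ → ℕ → Set X) (h1 : ∀ a ≤ n, ∀ᶠ j in u, T a j ∈ Γ ∧ p ∈ T a j)
    (h2 : ∀ a b, a < b → b ≤ n → ∀ᶠ i in u, ∀ᶠ j in u, ¬ T a i ⊆ T b j ∧ ¬ T b j ⊆ T a i) :
    False := by
  have h3 : ∀ m ≤ n + 1, ∃ Δ ⊆ Γ, Δ.Finite ∧ (∀ B ∈ Δ, p ∈ B) ∧ IsAntichain (· ⊆ ·) Δ ∧
      Δ.encard = m ∧ ∀ B ∈ Δ, ∀ b, m ≤ b → b ≤ n → ∀ᶠ j in u, ¬ B ⊆ T b j ∧ ¬ T b j ⊆ B := by
    intro m
    induction m with
    | zero => exact fun _ => ⟨∅, empty_subset _, finite_empty, by simp, IsAntichain.empty, by simp,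
        by simp⟩
    | succ m ih =>
      intro hm
      have hm' := Nat.le_of_succ_le_succ hm
      obtain ⟨Δ, h3, h4, h5, h6, h7, h8⟩ := ih (hm'.trans n.le_succ)
      obtain ⟨i, ⟨h9, h10⟩, h11, h12⟩ := ((h1 m hm').and
        (((eventually_all_finite h4).2 fun B hB => h8 B hB m le_rfl hm').and
          ((eventually_all_finite (finite_Ioc m n)).2 fun b hb => h2 m b hb.1 hb.2))).exists
      refine ⟨insert (T m i) Δ, insert_subset h9 h3, h4.insert _,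
        forall_mem_insert.2 ⟨h10, h5⟩, h6.insert (fun B hB _ => (h11 B hB).1)
          fun B hB _ => (h11 B hB).2, ?_, forall_mem_insert.2
        ⟨fun b hb hb' => h12 b ⟨hb, hb'⟩, fun B hB b hb => h8 B hB b (m.le_succ.trans hb)⟩⟩
      rw [encard_insert_of_notMem fun h => (h11 _ h).1 subset_rfl, h7]
      rfl
  obtain ⟨Δ, h3, -, h5, h6, h7, -⟩ := h3 _ le_rfl
  have h8 := h Δ h3 h5 h6
  rw [h7] at h8
  exact absurd (by exact_mod_cast h8 : n + 1 ≤ n) (by omega)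

lemma chain {X : Type u} {Γ : Set (Set X)} {p : X} {n : ℕ} (h : RankLE Γ p n) (u : Ultrafilter ℕ)
    (T : ℕ → Set X) (h1 : ∀ᶠ j in u, T j ∈ Γ ∧ p ∈ T j)
    (h2 : ∀ᶠ i in u, ∀ᶠ j in u, ¬ T j ⊆ T i) : ∀ᶠ i in u, ∀ᶠ j in u, T i ⊆ T j := by
  by_contra h3
  refine anti h u (fun _ => T) (fun _ _ => h1) fun _ _ _ _ => ?_
  filter_upwards [Ultrafilter.eventually_not.2 h3, h2] with i h4 h5
  exact (Ultrafilter.eventually_not.2 h4).and h5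

lemma single {X : Type u} [TopologicalSpace X] [T1Space X] (hX : PointFiniteRankBase X) :
    ∃ S : X → Set X → Set X, (∀ x, ∀ B ∈ 𝓝 x, IsOpen (S x B) ∧ x ∈ S x B ∧ S x B ⊆ B) ∧
      ∀ (u : Ultrafilter ℕ) (x : ℕ → X) (B : ℕ → Set X) (w : X), (∀ j, B j ∈ 𝓝 (x j)) →
        (∀ j, w ∈ S (x j) (B j)) → ¬ ∀ᶠ i in u, ∀ᶠ j in u, x j ∉ B i := by
  obtain ⟨Γ, hΓ, hr⟩ := hX
  choose n hn using hr
  obtain ⟨_, _⟩ := exists_wellFoundedLT X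
  have h1 : ∀ (x : X) (B : Set X), ∃ C, B ∈ 𝓝 x → C ∈ Γ ∧ x ∈ C ∧ C ⊆ B ∧
      ∀ q, IsLeast B q → q ≠ x → q ∉ C := by
    intro x B
    by_cases h : B ∈ 𝓝 x
    swap
    · exact ⟨∅, fun h1 => absurd h1 h⟩
    obtain ⟨C, h1, h2, h3⟩ := hΓ.mem_nhds_iff.1 (inter_mem h (((subsingleton_of_forall_eq
      (s := {q | IsLeast B q ∧ q ≠ x}) (wellFounded_lt.min B ⟨x, mem_of_mem_nhds h⟩)
      fun q hq => hq.1.unique ⟨wellFounded_lt.min_mem _ _, fun y hy =>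
        not_lt.1 (wellFounded_lt.not_lt_min _ hy)⟩).finite.isClosed.isOpen_compl).mem_nhds
      fun h => h.2 rfl))
    exact ⟨C, fun _ => ⟨h1, h2, fun y hy => (h3 hy).1, fun q h4 h5 h6 => (h3 h6).2 ⟨h4, h5⟩⟩⟩
  choose sh hsh using h1
  let L : X → Set X → ℕ → Set X := fun x B a => Nat.rec (sh x B) (fun _ C => sh x C) a
  have h1 : ∀ x, ∀ B ∈ 𝓝 x, ∀ a, L x B a ∈ Γ ∧ x ∈ L x B a ∧ L x B a ⊆ B := by
    intro x B hB a
    induction a with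
    | zero => exact ⟨(hsh x B hB).1, (hsh x B hB).2.1, (hsh x B hB).2.2.1⟩
    | succ a ih =>
      have := hsh x _ ((hΓ.isOpen ih.1).mem_nhds ih.2.1)
      exact ⟨this.1, this.2.1, this.2.2.1.trans ih.2.2⟩
  have h2 := fun x B hB a => hsh x _ ((hΓ.isOpen (h1 x B hB a).1).mem_nhds (h1 x B hB a).2.1)
  have h3 : ∀ x, ∀ B ∈ 𝓝 x, Antitone (L x B) := fun x B hB =>
    antitone_nat_of_succ_le fun a => (h2 x B hB a).2.2.1
  refine ⟨fun x B => L x B (n x), fun x B hB => ⟨hΓ.isOpen (h1 x B hB _).1, (h1 x B hB _).2⟩,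
    fun u x B w hB hw h4 => ?_⟩
  have h5 : ∀ a b : ℕ → ℕ, ∀ᶠ i in u, ∀ᶠ j in u, ¬ L (x j) (B j) (b j) ⊆ L (x i) (B i) (a i) :=
    fun a b => h4.mono fun i hi => hi.mono fun j hj h =>
      hj ((h1 _ _ (hB i) _).2.2 (h (h1 _ _ (hB j) _).2.1))
  have h6 := chain (hn w) u (fun j => L (x j) (B j) (n (x j)))
    (Eventually.of_forall fun j => ⟨(h1 _ _ (hB j) _).1, hw j⟩) (h5 _ _)
  obtain ⟨i, h7, h8⟩ := (wellFounded_lt.onFun (f := fun i => n (x i))).has_min _ h6.exists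
  have h9 : ∀ a ≤ n (x i), ∀ᶠ j in u, L (x j) (B j) a ∈ Γ ∧ x i ∈ L (x j) (B j) a := by
    intro a ha
    filter_upwards [h6, h7] with j h9 h10
    exact ⟨(h1 _ _ (hB j) _).1, h3 _ _ (hB j) (ha.trans (not_lt.1 (h8 j h9)))
      (h10 (h1 _ _ (hB i) _).2.1)⟩
  refine anti (hn (x i)) u (fun a j => L (x j) (B j) a) h9 fun a b hab hb => ?_
  have h10 := chain (hn (x i)) u _ (h9 a (hab.le.trans hb)) (h5 _ _)
  obtain ⟨q, ⟨k, h11, h12⟩, h13⟩ := wellFounded_lt.has_min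
    {q | ∃ k, (∀ᶠ j in u, L (x k) (B k) a ⊆ L (x j) (B j) a) ∧ q ∈ L (x k) (B k) a}
    (let ⟨k, hk⟩ := h10.exists; ⟨_, k, hk, (h1 _ _ (hB k) _).2.1⟩)
  have h14 : ∀ᶠ j in u, IsLeast (L (x j) (B j) a) q := by
    filter_upwards [h10, h11] with j h14 h15
    exact ⟨h15 h12, fun y hy => not_lt.1 (h13 y ⟨j, h14, hy⟩)⟩
  have h15 : ∀ᶠ j in u, q ≠ x j := by
    obtain ⟨j, h15, h16⟩ := (h14.and h4).exists
    exact h16.mono fun j' h17 h18 => h17 (h18 ▸ (h1 _ _ (hB j) _).2.2 h15.1)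
  filter_upwards [h14, h5 (fun _ => a) fun _ => b] with j h16 h17
  filter_upwards [h14, h15, h17] with j' h18 h19 h20
  exact ⟨fun h => (h2 _ _ (hB j') a).2.2.2 q h18 h19 (h3 _ _ (hB j') hab (h h16.1)), h20⟩

lemma key {ι : Type} [Finite ι] {X : ι → Type u} [∀ c, TopologicalSpace (X c)]
    [∀ c, T1Space (X c)] (hX : ∀ c, PointFiniteRankBase (X c)) (O : (∀ c, X c) → Set (∀ c, X c))
    (hO : ∀ z, O z ∈ 𝓝 z) : ∃ S : (∀ c, X c) → Set (∀ c, X c),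
      (∀ z, IsOpen (S z) ∧ z ∈ S z ∧ S z ⊆ O z) ∧
      ∀ (z : ℕ → ∀ c, X c) w, (∀ j, w ∈ S (z j)) → ∃ i j, i < j ∧ z j ∈ O (z i) := by
  choose S h1 h2 using fun c => single (hX c)
  have h3 : ∀ z, ∃ B : ∀ c, Set (X c), (∀ c, B c ∈ 𝓝 (z c)) ∧ univ.pi B ⊆ O z := fun z => by
    have := hO z
    rw [nhds_pi, Filter.mem_pi] at this
    obtain ⟨I, -, B, h3, h4⟩ := this
    exact ⟨B, h3, (pi_mono' (fun _ _ => subset_rfl) (subset_univ I)).trans h4⟩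
  choose B h3 h4 using h3
  refine ⟨fun z => univ.pi fun c => S c (z c) (B z c), fun z => ⟨isOpen_set_pi finite_univ
    fun c _ => (h1 c _ _ (h3 z c)).1, fun c _ => (h1 c _ _ (h3 z c)).2.1,
    (pi_mono fun c _ => (h1 c _ _ (h3 z c)).2.2).trans (h4 z)⟩, fun z w hw => ?_⟩
  by_contra h
  push Not at h
  have h5 : ∀ᶠ i in hyperfilter ℕ, ∀ c, ¬ ∀ᶠ j in hyperfilter ℕ, z j c ∉ B (z i) c :=
    eventually_all.2 fun c => Ultrafilter.eventually_not.2 (h2 c _ (fun j => z j c)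
      (fun j => B (z j) c) (w c) (fun j => h3 _ c) fun j => hw j c trivial)
  obtain ⟨i, h6⟩ := h5.exists
  obtain ⟨j, h7, h8⟩ := (((eventually_gt_atTop i).filter_mono Nat.hyperfilter_le_atTop).and
    (eventually_all.2 fun c => Ultrafilter.eventually_not.2 (h6 c))).exists
  exact h i j h7 (h4 _ fun c _ => not_not.1 (h8 c))

lemma her {ι : Type} [Finite ι] {X : ι → Type u} [∀ c, TopologicalSpace (X c)]
    [∀ c, T1Space (X c)] (hX : ∀ c, PointFiniteRankBase (X c)) {Y : Type u} [TopologicalSpace Y]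
    {e : Y → ∀ c, X c} (he : IsEmbedding e) : Metacompact Y := by
  classical
  intro 𝒰 h1 h2
  let r : Set Y ↪ Cardinal.{u} := embeddingToCardinal
  have h3 : ∀ y : Y, ∃ U, (U ∈ 𝒰 ∧ y ∈ U) ∧ ∀ U', U' ∈ 𝒰 ∧ y ∈ U' → ¬ r U' < r U := fun y =>
    (wellFounded_lt.onFun (f := r)).has_min {U | U ∈ 𝒰 ∧ y ∈ U}
      (mem_sUnion.1 (h2 ▸ mem_univ y))
  choose ρ h3 h4 using h3
  have h5 : ∀ z, ∃ O ∈ 𝓝 z, ∀ y, e y = z → e ⁻¹' O ⊆ ρ y := by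
    intro z
    by_cases h : z ∈ range e
    · obtain ⟨y, rfl⟩ := h
      obtain ⟨O, h5, h6⟩ := he.isOpen_iff.1 (h1 _ (h3 y).1)
      exact ⟨O, h5.mem_nhds (show y ∈ e ⁻¹' O from h6 ▸ (h3 y).2),
        fun y' h => he.injective h ▸ h6.subset⟩
    · exact ⟨univ, univ_mem, fun y h5 => absurd ⟨y, h5⟩ h⟩
  choose O h5 h6 using h5
  obtain ⟨S, h7, h8⟩ := key hX O h5
  let V : Set Y → Set Y := fun U => ⋃ y ∈ ρ ⁻¹' {U}, e ⁻¹' S (e y)
  refine ⟨V '' 𝒰, forall_mem_image.2 fun U hU => ⟨isOpen_biUnion fun y _ =>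
    (h7 _).1.preimage he.continuous, U, hU, iUnion₂_subset fun y hy =>
      (preimage_mono (h7 _).2.2).trans ((h6 _ y rfl).trans hy.subset)⟩,
    eq_univ_of_forall fun y => ⟨_, ⟨_, (h3 y).1, rfl⟩, mem_biUnion (x := y) rfl (h7 _).2.1⟩,
    fun w => ?_⟩
  refine (Finite.image V (s := {U | w ∈ V U}) ?_).subset fun _ ⟨⟨U, _, hU⟩, h⟩ =>
    ⟨U, show w ∈ V U from hU.symm ▸ h, hU⟩
  by_contra h
  have := (show {U | w ∈ V U}.Infinite from h).to_subtype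
  let f : ℕ ↪ {U | w ∈ V U} := Infinite.natEmbedding _
  obtain ⟨g, h9⟩ := (wellQuasiOrdered_le (α := Cardinal.{u})).exists_monotone_subseq
    fun j => r (f j).1
  choose y h10 h11 using fun j => mem_iUnion₂.1 (f (g j)).2
  obtain ⟨i, j, h12, h13⟩ := h8 (fun j => e (y j)) (e w) h11
  refine h4 (y j) (ρ (y i)) ⟨(h3 _).1, h6 _ _ rfl h13⟩ ?_
  rw [show ρ (y i) = _ from h10 i, show ρ (y j) = _ from h10 j]
  exact (h9 i j h12.le).lt_of_ne fun h =>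
    h12.ne (g.injective (f.injective (Subtype.ext (r.injective h))))

theorem result :
    ∀ (k : ℕ) (X : Fin k → Type u) [∀ i, TopologicalSpace (X i)] [∀ i, T1Space (X i)],
      (∀ i, PointFiniteRankBase (X i)) →
        ∀ (Y : Type u) [TopologicalSpace Y] (e : Y → ∀ i, X i), IsEmbedding e → Metacompact Y :=
  fun _ _ _ _ h _ _ _ he => her h he

end Pool.Agent.Results.MP_bc8021_gt.ProdMetaT1
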